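import Mathlib

/-!
Two vectors version of the double commutant theorem: an operator in the double commutant of a
self-adjoint operator `A` is approximated at two given vectors by polynomials in `A`.
-/

set_option autoImplicit false
set_option linter.unusedSectionVars false

namespace Pool.Agent.LibCS52

open ContinuousLinearMap

variable {H : Type*} [NormedAddCommGroup H] [InnerProductSpace ℂ H] [CompleteSpace H]

/-- the diagonal operator on `H ⊕ H` -/
noncomputable def dg (B : H →L[ℂ] H) : WithLp 2 (H × H) →L[ℂ] WithLp 2 (H × H) :=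
  ((WithLp.prodContinuousLinearEquiv 2 ℂ H H).symm : H × H →L[ℂ] WithLp 2 (H × H)) ∘L
    (B.prodMap B) ∘L ((WithLp.prodContinuousLinearEquiv 2 ℂ H H) : WithLp 2 (H × H) →L[ℂ] H × H)

@[simp] theorem dg_fst (B : H →L[ℂ] H) (v : WithLp 2 (H × H)) : (dg B v).fst = B v.fst := rfl

@[simp] theorem dg_snd (B : H →L[ℂ] H) (v : WithLp 2 (H × H)) : (dg B v).snd = B v.snd := rfl

theorem ext2 {u v : WithLp 2 (H × H)} (h1 : u.fst = v.fst) (h2 : u.snd = v.snd) : u = v := by
  apply WithLp.ofLp_injective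
  exact Prod.ext h1 h2

theorem norm_fst_le' (v : WithLp 2 (H × H)) : ‖v.fst‖ ≤ ‖v‖ := by
  have h := WithLp.prod_norm_sq_eq_of_L2 v
  nlinarith [norm_nonneg v.fst, norm_nonneg v.snd, norm_nonneg v, sq_nonneg ‖v.snd‖]

theorem norm_snd_le' (v : WithLp 2 (H × H)) : ‖v.snd‖ ≤ ‖v‖ := by
  have h := WithLp.prod_norm_sq_eq_of_L2 v
  nlinarith [norm_nonneg v.fst, norm_nonneg v.snd, norm_nonneg v, sq_nonneg ‖v.fst‖]

/-- the vectors `(p(A) x₁, p(A) x₂)` -/
noncomputable def polyMap (A : H →L[ℂ] H) (x₁ x₂ : H) : Polynomial ℂ →ₗ[ℂ] WithLp 2 (H × H) where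
  toFun p := WithLp.toLp 2 (Polynomial.aeval A p x₁, Polynomial.aeval A p x₂)
  map_add' p q := by
    apply ext2 <;> simp
  map_smul' c p := by
    apply ext2 <;> simp

theorem dg_polyMap (A : H →L[ℂ] H) (x₁ x₂ : H) (p : Polynomial ℂ) :
    dg A (polyMap A x₁ x₂ p) = polyMap A x₁ x₂ (Polynomial.X * p) := by
  apply ext2
  · show A (Polynomial.aeval A p x₁) = Polynomial.aeval A (Polynomial.X * p) x₁
    rw [map_mul, Polynomial.aeval_X]
    rfl
  · show A (Polynomial.aeval A p x₂) = Polynomial.aeval A (Polynomial.X * p) x₂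
    rw [map_mul, Polynomial.aeval_X]
    rfl

/-- the first and the second inclusion -/
noncomputable def i1 : H →L[ℂ] WithLp 2 (H × H) :=
  ((WithLp.prodContinuousLinearEquiv 2 ℂ H H).symm : H × H →L[ℂ] WithLp 2 (H × H)) ∘L
    (ContinuousLinearMap.inl ℂ H H)

noncomputable def i2 : H →L[ℂ] WithLp 2 (H × H) :=
  ((WithLp.prodContinuousLinearEquiv 2 ℂ H H).symm : H × H →L[ℂ] WithLp 2 (H × H)) ∘L
    (ContinuousLinearMap.inr ℂ H H)

theorem dg_i1 (B : H →L[ℂ] H) (x : H) : dg B (i1 x) = i1 (B x) := by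
  apply ext2
  · rfl
  · show B 0 = 0
    exact map_zero B

theorem dg_i2 (B : H →L[ℂ] H) (x : H) : dg B (i2 x) = i2 (B x) := by
  apply ext2
  · show B 0 = 0
    exact map_zero B
  · rfl

theorem i1_add_i2 (v : WithLp 2 (H × H)) : i1 v.fst + i2 v.snd = v := by
  apply ext2
  · show v.fst + 0 = v.fst
    exact add_zero _
  · show 0 + v.snd = v.snd
    exact zero_add _

/-- **Double commutant theorem for two vectors.** -/
theorem approx_two (A : H →L[ℂ] H) (hA : IsSelfAdjoint A) (Y : H →L[ℂ] H)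
    (hY : ∀ B : H →L[ℂ] H, B * A = A * B → B * Y = Y * B) (x₁ x₂ : H) {ε : ℝ} (hε : 0 < ε) :
    ∃ p : Polynomial ℂ, ‖Polynomial.aeval A p x₁ - Y x₁‖ < ε ∧
      ‖Polynomial.aeval A p x₂ - Y x₂‖ < ε := by
  set N₀ : Submodule ℂ (WithLp 2 (H × H)) := LinearMap.range (polyMap A x₁ x₂) with hN₀
  set N : Submodule ℂ (WithLp 2 (H × H)) := N₀.topologicalClosure with hN
  have hNc : IsClosed (N : Set (WithLp 2 (H × H))) := N₀.isClosed_topologicalClosure
  have : CompleteSpace N := hNc.completeSpace_coe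
  have hle : N₀ ≤ N := N₀.le_topologicalClosure
  -- `N` is invariant
  have hinv : ∀ v ∈ N, dg A v ∈ N := by
    have h1 : N ≤ N.comap (dg A : WithLp 2 (H × H) →ₗ[ℂ] WithLp 2 (H × H)) := by
      apply Submodule.topologicalClosure_minimal
      · rintro _ ⟨p, rfl⟩
        show dg A (polyMap A x₁ x₂ p) ∈ N
        rw [dg_polyMap]
        exact hle ⟨_, rfl⟩
      · exact hNc.preimage (dg A).continuous
    exact fun v hv => h1 hv
  have hsa : ∀ u v : WithLp 2 (H × H), inner ℂ (dg A u) v = inner ℂ u (dg A v) := by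
    intro u v
    have hA' : ∀ a b : H, inner ℂ (A a) b = inner ℂ a (A b) := by
      intro a b
      have := ContinuousLinearMap.adjoint_inner_left A b a
      rw [hA.adjoint_eq] at this
      exact this
    rw [WithLp.prod_inner_apply, WithLp.prod_inner_apply]
    show inner ℂ (A u.fst) v.fst + inner ℂ (A u.snd) v.snd =
      inner ℂ u.fst (A v.fst) + inner ℂ u.snd (A v.snd)
    rw [hA', hA']
  have horth : ∀ v ∈ Nᗮ, dg A v ∈ Nᗮ := by
    intro v hv
    rw [Submodule.mem_orthogonal] at hv ⊢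
    intro u hu
    rw [← hsa]
    exact hv _ (hinv u hu)
  have hcomm : ∀ v, N.starProjection (dg A v) = dg A (N.starProjection v) := by
    intro v
    apply Submodule.eq_starProjection_of_mem_orthogonal
    · exact hinv _ (Submodule.starProjection_apply_mem N v)
    · rw [← map_sub]
      exact horth _ (Submodule.sub_starProjection_mem_orthogonal v)
  -- entries
  have hentry : ∀ (π : WithLp 2 (H × H) →L[ℂ] H) (j : H →L[ℂ] WithLp 2 (H × H)),
      (∀ v, π (dg A v) = A (π v)) → (∀ x, dg A (j x) = j (A x)) → ∀ x,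
      π (N.starProjection (j (Y x))) = Y (π (N.starProjection (j x))) := by
    intro π j h1 h2 x
    have h3 : (π ∘L N.starProjection ∘L j) * A = A * (π ∘L N.starProjection ∘L j) := by
      ext y
      show π (N.starProjection (j (A y))) = A (π (N.starProjection (j y)))
      rw [← h2, hcomm, h1]
    have h4 := hY _ h3
    exact congrArg (fun B : H →L[ℂ] H => B x) h4
  have hmem : ∀ w : WithLp 2 (H × H), w ∈ N → dg Y w ∈ N := by
    intro w hw
    have hw' : N.starProjection w = w := Submodule.starProjection_eq_self_iff.2 hw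
    have hY' : dg Y w = i1 (Y w.fst) + i2 (Y w.snd) := (i1_add_i2 (dg Y w)).symm
    rw [← Submodule.starProjection_eq_self_iff]
    apply ext2
    · rw [hY', map_add]
      have e1 := hentry (WithLp.fstL 2 ℂ H H) i1 (fun v => rfl) (dg_i1 A) w.fst
      have e2 := hentry (WithLp.fstL 2 ℂ H H) i2 (fun v => rfl) (dg_i2 A) w.snd
      show (N.starProjection (i1 (Y w.fst))).fst + (N.starProjection (i2 (Y w.snd))).fst =
        (i1 (Y w.fst) + i2 (Y w.snd)).fst
      have e1' : (N.starProjection (i1 (Y w.fst))).fst = Y (N.starProjection (i1 w.fst)).fst := e1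
      have e2' : (N.starProjection (i2 (Y w.snd))).fst = Y (N.starProjection (i2 w.snd)).fst := e2
      rw [e1', e2', ← map_add, ← hY', dg_fst]
      congr 1
      have : (N.starProjection (i1 w.fst)).fst + (N.starProjection (i2 w.snd)).fst =
          (N.starProjection (i1 w.fst + i2 w.snd)).fst := by
        rw [map_add]; rfl
      rw [this, i1_add_i2, hw']
    · rw [hY', map_add]
      have e1 := hentry (WithLp.sndL 2 ℂ H H) i1 (fun v => rfl) (dg_i1 A) w.fst
      have e2 := hentry (WithLp.sndL 2 ℂ H H) i2 (fun v => rfl) (dg_i2 A) w.snd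
      show (N.starProjection (i1 (Y w.fst))).snd + (N.starProjection (i2 (Y w.snd))).snd =
        (i1 (Y w.fst) + i2 (Y w.snd)).snd
      have e1' : (N.starProjection (i1 (Y w.fst))).snd = Y (N.starProjection (i1 w.fst)).snd := e1
      have e2' : (N.starProjection (i2 (Y w.snd))).snd = Y (N.starProjection (i2 w.snd)).snd := e2
      rw [e1', e2', ← map_add, ← hY', dg_snd]
      congr 1
      have : (N.starProjection (i1 w.fst)).snd + (N.starProjection (i2 w.snd)).snd =
          (N.starProjection (i1 w.fst + i2 w.snd)).snd := by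
        rw [map_add]; rfl
      rw [this, i1_add_i2, hw']
  have hw₀ : polyMap A x₁ x₂ 1 ∈ N := hle ⟨1, rfl⟩
  have h5 := hmem _ hw₀
  have h6 : dg Y (polyMap A x₁ x₂ 1) ∈ closure (N₀ : Set (WithLp 2 (H × H))) := h5
  obtain ⟨_, ⟨p, rfl⟩, hp⟩ := Metric.mem_closure_iff.1 h6 ε hε
  refine ⟨p, ?_, ?_⟩
  · have h7 := norm_fst_le' (dg Y (polyMap A x₁ x₂ 1) - polyMap A x₁ x₂ p)
    have h8 : (dg Y (polyMap A x₁ x₂ 1) - polyMap A x₁ x₂ p).fst =
        Y x₁ - Polynomial.aeval A p x₁ := by
      show Y (Polynomial.aeval A 1 x₁) - Polynomial.aeval A p x₁ = _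
      rw [map_one]; rfl
    rw [h8] at h7
    rw [dist_eq_norm] at hp
    rw [norm_sub_rev]
    exact lt_of_le_of_lt h7 hp
  · have h7 := norm_snd_le' (dg Y (polyMap A x₁ x₂ 1) - polyMap A x₁ x₂ p)
    have h8 : (dg Y (polyMap A x₁ x₂ 1) - polyMap A x₁ x₂ p).snd =
        Y x₂ - Polynomial.aeval A p x₂ := by
      show Y (Polynomial.aeval A 1 x₂) - Polynomial.aeval A p x₂ = _
      rw [map_one]; rfl
    rw [h8] at h7
    rw [dist_eq_norm] at hp
    rw [norm_sub_rev]
    exact lt_of_le_of_lt h7 hp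

end Pool.Agent.LibCS52
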