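import Pool.Agent.LibCS52.Bicomm

/-!
Conjugations, complex symmetric operators, double commutants.
-/

set_option autoImplicit false
set_option linter.unusedSectionVars false

namespace Pool.Agent.LibCS52

open ContinuousLinearMap

variable {H : Type*} [NormedAddCommGroup H] [InnerProductSpace ℂ H] [CompleteSpace H]

/-- A conjugation: a conjugate-linear involution with `⟪C x, C y⟫ = ⟪y, x⟫`. -/
structure IsConjugation (C : H → H) : Prop where
  invol : ∀ x, C (C x) = x
  add : ∀ x y, C (x + y) = C x + C y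
  smul : ∀ (a : ℂ) x, C (a • x) = (starRingEnd ℂ a) • C x
  inner : ∀ x y, inner ℂ (C x) (C y) = inner ℂ y x

/-- `T = C T* C` -/
def CSym (C : H → H) (T : H →L[ℂ] H) : Prop := ∀ x, T x = C (adjoint T (C x))

theorem IsConjugation.norm {C : H → H} (hC : IsConjugation C) (x : H) : ‖C x‖ = ‖x‖ := by
  have h := hC.inner x x
  rw [inner_self_eq_norm_sq_to_K, inner_self_eq_norm_sq_to_K] at h
  have h' : ‖C x‖ ^ 2 = ‖x‖ ^ 2 := by exact_mod_cast h
  exact (sq_eq_sq₀ (norm_nonneg _) (norm_nonneg _)).1 h'

theorem IsConjugation.sub {C : H → H} (hC : IsConjugation C) (x y : H) :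
    C (x - y) = C x - C y := by
  have h1 : x - y = x + (-1 : ℂ) • y := by simp [sub_eq_add_neg]
  rw [h1, hC.add, hC.smul]
  simp [sub_eq_add_neg]

/-- the operator `C B C` -/
noncomputable def cj {C : H → H} (hC : IsConjugation C) (B : H →L[ℂ] H) : H →L[ℂ] H :=
  LinearMap.mkContinuous
    { toFun := fun x => C (B (C x))
      map_add' := by
        intro x y
        rw [hC.add, map_add, hC.add]
      map_smul' := by
        intro a x
        rw [hC.smul, map_smul, hC.smul]
        simp } ‖B‖ (by
    intro x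
    show ‖C (B (C x))‖ ≤ ‖B‖ * ‖x‖
    rw [hC.norm, ← hC.norm x]
    exact B.le_opNorm _)

section

variable {C : H → H} (hC : IsConjugation C)

theorem cj_apply (B : H →L[ℂ] H) (x : H) : cj hC B x = C (B (C x)) := rfl

theorem cj_cj (B : H →L[ℂ] H) : cj hC (cj hC B) = B := by
  ext x
  rw [cj_apply, cj_apply, hC.invol, hC.invol]

theorem cj_mul (A B : H →L[ℂ] H) : cj hC (A * B) = cj hC A * cj hC B := by
  ext x
  show C (A (B (C x))) = C (A (C (C (B (C x)))))
  rw [hC.invol (B (C x))]

theorem cj_one : cj hC (1 : H →L[ℂ] H) = 1 := by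
  ext x
  show C (C x) = x
  exact hC.invol x

theorem cj_add (A B : H →L[ℂ] H) : cj hC (A + B) = cj hC A + cj hC B := by
  ext x
  show C (A (C x) + B (C x)) = C (A (C x)) + C (B (C x))
  exact hC.add _ _

theorem cj_smul (a : ℂ) (B : H →L[ℂ] H) : cj hC (a • B) = (starRingEnd ℂ a) • cj hC B := by
  ext x
  show C (a • B (C x)) = (starRingEnd ℂ a) • C (B (C x))
  exact hC.smul _ _

theorem cj_star (B : H →L[ℂ] H) : cj hC (star B) = star (cj hC B) := by
  rw [ContinuousLinearMap.star_eq_adjoint, ContinuousLinearMap.star_eq_adjoint]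
  rw [ContinuousLinearMap.eq_adjoint_iff]
  intro x y
  rw [cj_apply, cj_apply]
  calc inner ℂ (C (adjoint B (C x))) y
      = inner ℂ (C (adjoint B (C x))) (C (C y)) := by rw [hC.invol y]
    _ = inner ℂ (C y) (adjoint B (C x)) := hC.inner _ _
    _ = inner ℂ (B (C y)) (C x) := adjoint_inner_right B _ _
    _ = inner ℂ (C (C (B (C y)))) (C x) := by rw [hC.invol (B (C y))]
    _ = inner ℂ x (C (B (C y))) := hC.inner _ _

variable {T : H →L[ℂ] H} (hT : CSym C T)
include hT

theorem cj_star_T : cj hC (star T) = T := by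
  ext x
  rw [cj_apply, hT x]
  rfl

theorem cj_T : cj hC T = star T := by
  rw [← star_star (cj hC T), ← cj_star hC, cj_star_T hC hT]

theorem cj_S1 : cj hC (star T * T) = T * star T := by
  rw [cj_mul, cj_star_T hC hT, cj_T hC hT]

theorem cj_S2 : cj hC (T * star T) = star T * T := by
  rw [cj_mul, cj_star_T hC hT, cj_T hC hT]

end

/-! ### Double commutants -/

/-- the double commutant of an operator (for a self-adjoint operator: the von Neumann algebra
generated by it) -/
def dc (A : H →L[ℂ] H) : Set (H →L[ℂ] H) := Set.centralizer (Set.centralizer {A})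

theorem mem_dc {A Y : H →L[ℂ] H} : Y ∈ dc A ↔ ∀ B : H →L[ℂ] H, B * A = A * B → B * Y = Y * B := by
  unfold dc
  rw [Set.mem_centralizer_iff]
  constructor
  · intro h B hB
    exact h B (by rw [Set.mem_centralizer_iff]; rintro _ rfl; exact hB.symm)
  · intro h B hB
    rw [Set.mem_centralizer_iff] at hB
    exact h B (hB A rfl).symm

theorem self_mem_dc (A : H →L[ℂ] H) : A ∈ dc A := mem_dc.2 fun _ h => h

theorem one_mem_dc (A : H →L[ℂ] H) : (1 : H →L[ℂ] H) ∈ dc A := mem_dc.2 fun B _ => by simp

theorem add_mem_dc {A X Y : H →L[ℂ] H} (hX : X ∈ dc A) (hY : Y ∈ dc A) : X + Y ∈ dc A := by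
  rw [mem_dc] at *
  intro B hB
  rw [mul_add, add_mul, hX B hB, hY B hB]

theorem mul_mem_dc {A X Y : H →L[ℂ] H} (hX : X ∈ dc A) (hY : Y ∈ dc A) : X * Y ∈ dc A := by
  rw [mem_dc] at *
  intro B hB
  rw [← mul_assoc, hX B hB, mul_assoc, hY B hB, mul_assoc]

theorem smul_mem_dc {A Y : H →L[ℂ] H} (c : ℂ) (hY : Y ∈ dc A) : c • Y ∈ dc A := by
  rw [mem_dc] at *
  intro B hB
  rw [mul_smul_comm, smul_mul_assoc, hY B hB]

theorem sub_mem_dc {A X Y : H →L[ℂ] H} (hX : X ∈ dc A) (hY : Y ∈ dc A) : X - Y ∈ dc A := by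
  have : X - Y = X + (-1 : ℂ) • Y := by simp [sub_eq_add_neg]
  rw [this]
  exact add_mem_dc hX (smul_mem_dc _ hY)

theorem dc_comm {A X Y : H →L[ℂ] H} (hX : X ∈ dc A) (hY : Y ∈ dc A) : X * Y = Y * X := by
  have h1 := mem_dc.1 hX A rfl
  exact mem_dc.1 hY X h1.symm

theorem star_mem_dc {A Y : H →L[ℂ] H} (hA : IsSelfAdjoint A) (hY : Y ∈ dc A) : star Y ∈ dc A := by
  rw [mem_dc] at *
  intro B hB
  have h1 : star B * A = A * star B := by
    have := congrArg star hB
    rw [star_mul, star_mul, hA.star_eq] at this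
    exact this.symm
  have h2 := congrArg star (hY _ h1)
  rw [star_mul, star_mul, star_star] at h2
  exact h2.symm

theorem cj_mem_dc {C : H → H} (hC : IsConjugation C) {A Y : H →L[ℂ] H} (hY : Y ∈ dc A) :
    cj hC Y ∈ dc (cj hC A) := by
  rw [mem_dc] at *
  intro B hB
  have h1 : cj hC B * A = A * cj hC B := by
    have := congrArg (cj hC) hB
    rw [cj_mul, cj_mul, cj_cj] at this
    exact this
  have h2 := congrArg (cj hC) (hY _ h1)
  rw [cj_mul, cj_mul, cj_cj] at h2
  exact h2

theorem isStarNormal_of_mem_dc {A Y : H →L[ℂ] H} (hA : IsSelfAdjoint A) (hY : Y ∈ dc A) :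
    IsStarNormal Y :=
  ⟨dc_comm (star_mem_dc hA hY) hY⟩

theorem aeval_mem_dc (A : H →L[ℂ] H) (p : Polynomial ℂ) : Polynomial.aeval A p ∈ dc A := by
  rw [mem_dc]
  intro B hB
  have h : Commute B A := hB
  induction p using Polynomial.induction_on' with
  | add p q hp hq => rw [map_add, mul_add, add_mul, hp, hq]
  | monomial n a =>
    rw [Polynomial.aeval_monomial]
    have h1 : Commute B (algebraMap ℂ (H →L[ℂ] H) a * A ^ n) :=
      Commute.mul_right ((Algebra.commutes a B).symm) (h.pow_right n)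
    exact h1

/-! ### The main identity -/

section

variable {C : H → H} (hC : IsConjugation C) {T : H →L[ℂ] H} (hT : CSym C T)
include hC hT

theorem C_T (x : H) : C (T x) = star T (C x) := by
  rw [hT x, hC.invol]
  rfl

theorem C_starT (x : H) : C (star T x) = T (C x) := by
  rw [hT (C x), hC.invol]
  rfl

theorem K_S1 (x : H) : C (T ((star T * T) x)) = (star T * T) (C (T x)) := by
  show C (T (star T (T x))) = star T (T (C (T x)))
  rw [C_T hC hT (star T (T x)), C_starT hC hT]

theorem K_S1_pow (n : ℕ) (x : H) :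
    C (T (((star T * T) ^ n) x)) = ((star T * T) ^ n) (C (T x)) := by
  induction n generalizing x with
  | zero => rfl
  | succ n ih =>
    rw [pow_succ]
    show C (T (((star T * T) ^ n) ((star T * T) x))) = ((star T * T) ^ n) ((star T * T) (C (T x)))
    rw [ih, K_S1 hC hT]

theorem K_aeval (p : Polynomial ℂ) (x : H) :
    C (T (Polynomial.aeval (star T * T) p x)) =
      star (Polynomial.aeval (star T * T) p) (C (T x)) := by
  induction p using Polynomial.induction_on' with
  | add p q hp hq =>
    rw [map_add, star_add]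
    show C (T (Polynomial.aeval (star T * T) p x + Polynomial.aeval (star T * T) q x)) =
      star (Polynomial.aeval (star T * T) p) (C (T x)) +
        star (Polynomial.aeval (star T * T) q) (C (T x))
    rw [map_add, hC.add, hp, hq]
  | monomial n a =>
    have h1 : Polynomial.aeval (star T * T) (Polynomial.monomial n a) =
        a • (star T * T) ^ n := by
      rw [Polynomial.aeval_monomial, Algebra.smul_def]
    have h2 : star ((star T * T) ^ n) = (star T * T) ^ n := by
      rw [star_pow, star_mul, star_star]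
    rw [h1, star_smul, h2]
    show C (T (a • ((star T * T) ^ n) x)) = (star a) • ((star T * T) ^ n) (C (T x))
    rw [map_smul, hC.smul, K_S1_pow hC hT]
    rfl

/-- `T Y = (C Y* C) T` for `Y` in the double commutant of `T* T`. -/
theorem main_identity {Y : H →L[ℂ] H} (hY : Y ∈ dc (star T * T)) :
    T * Y = cj hC (star Y) * T := by
  have hS : IsSelfAdjoint (star T * T) := IsSelfAdjoint.star_mul_self T
  -- `C T Y x = Y* C T x`
  have key : ∀ x, C (T (Y x)) = star Y (C (T x)) := by
    intro x
    have hb : ∀ ε : ℝ, 0 < ε → ‖C (T (Y x)) - star Y (C (T x))‖ ≤ (‖T‖ + 1) * ε := by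
      intro ε hε
      obtain ⟨p, hp1, hp2⟩ := approx_two (star T * T) hS Y (mem_dc.1 hY) x (C (T x)) hε
      set P := Polynomial.aeval (star T * T) p with hP
      have hD : IsStarNormal (P - Y) :=
        isStarNormal_of_mem_dc hS (sub_mem_dc (aeval_mem_dc _ p) hY)
      have h1 : ‖C (T (Y x)) - C (T (P x))‖ ≤ ‖T‖ * ε := by
        rw [← hC.sub, hC.norm, ← map_sub]
        refine le_trans (T.le_opNorm _) (mul_le_mul_of_nonneg_left ?_ (norm_nonneg _))
        rw [norm_sub_rev]
        exact hp1.le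
      have h2 : ‖star P (C (T x)) - star Y (C (T x))‖ ≤ ε := by
        have h3 : star P (C (T x)) - star Y (C (T x)) = adjoint (P - Y) (C (T x)) := by
          rw [← ContinuousLinearMap.star_eq_adjoint, star_sub]
          rfl
        rw [h3, ← (isStarNormal_iff_norm_eq_adjoint.1 hD)]
        exact hp2.le
      calc ‖C (T (Y x)) - star Y (C (T x))‖
          = ‖(C (T (Y x)) - C (T (P x))) + (star P (C (T x)) - star Y (C (T x)))‖ := by
            rw [K_aeval hC hT p x]
            congr 1
            abel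
        _ ≤ ‖C (T (Y x)) - C (T (P x))‖ + ‖star P (C (T x)) - star Y (C (T x))‖ :=
            norm_add_le _ _
        _ ≤ ‖T‖ * ε + ε := add_le_add h1 h2
        _ = (‖T‖ + 1) * ε := by ring
    have h0 : ‖C (T (Y x)) - star Y (C (T x))‖ ≤ 0 := by
      refine le_of_forall_pos_le_add fun δ hδ => ?_
      have h1 : (0 : ℝ) < ‖T‖ + 1 := by positivity
      have := hb (δ / (‖T‖ + 1)) (by positivity)
      rw [mul_div_cancel₀ _ h1.ne'] at this
      linarith
    exact sub_eq_zero.1 (norm_le_zero_iff.1 h0)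
  ext x
  show T (Y x) = C (star Y (C (T x)))
  rw [← key x, hC.invol]

end

end Pool.Agent.LibCS52
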