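import Pool.Agent.LibCS52.Conj

/-!
Invariant and reducing subspaces.
-/

set_option autoImplicit false
set_option linter.unusedSectionVars false

namespace Pool.Agent.LibCS52

open ContinuousLinearMap

variable {H : Type*} [NormedAddCommGroup H] [InnerProductSpace ℂ H] [CompleteSpace H]

/-- a closed subspace, not `0` and not `H`, that is invariant under `T` -/
def HasInv (T : H →L[ℂ] H) : Prop :=
  ∃ M : Submodule ℂ H, IsClosed (M : Set H) ∧ M ≠ ⊥ ∧ M ≠ ⊤ ∧ ∀ x ∈ M, T x ∈ M

/-- a closed subspace, not `0` and not `H`, that is invariant under `T` and `T*` -/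
def HasRed (T : H →L[ℂ] H) : Prop :=
  ∃ M : Submodule ℂ H, IsClosed (M : Set H) ∧ M ≠ ⊥ ∧ M ≠ ⊤ ∧ (∀ x ∈ M, T x ∈ M) ∧
    ∀ x ∈ M, adjoint T x ∈ M

theorem HasRed.hasInv {T : H →L[ℂ] H} (h : HasRed T) : HasInv T := by
  obtain ⟨M, h1, h2, h3, h4, _⟩ := h
  exact ⟨M, h1, h2, h3, h4⟩

theorem cfc_ne_zero_aux [Nontrivial H] {R : H →L[ℂ] H} (hR : IsSelfAdjoint R) (f : ℝ → ℝ)
    (hf : Continuous f) {b : ℝ} (hb : b ∈ spectrum ℝ R) (hfb : f b ≠ 0) : cfc f R ≠ 0 := by
  intro h0
  have h1 : f b ∈ spectrum ℝ (cfc f R) := by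
    rw [cfc_map_spectrum f R hR hf.continuousOn]
    exact ⟨b, hb, rfl⟩
  rw [h0, spectrum.zero_eq (𝕜 := ℝ) (A := H →L[ℂ] H), Set.mem_singleton_iff] at h1
  exact hfb h1

theorem hasRed_of_selfAdjoint {T R : H →L[ℂ] H} (hR : IsSelfAdjoint R) (hTR : T * R = R * T)
    (hns : ¬ ∃ c : ℂ, R = c • (1 : H →L[ℂ] H)) : HasRed T := by
  have hnt : Nontrivial H := by
    by_contra h
    rw [not_nontrivial_iff_subsingleton] at h
    apply hns
    refine ⟨0, ?_⟩
    ext x
    exact Subsingleton.elim _ _
  -- two points of the spectrum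
  have h2 : ∃ a ∈ spectrum ℝ R, ∃ b ∈ spectrum ℝ R, a < b := by
    by_contra hcon
    push Not at hcon
    rcases (spectrum ℝ R).eq_empty_or_nonempty with he | ⟨a, ha⟩
    · apply hns
      refine ⟨0, ?_⟩
      have h1 : cfc (fun x : ℝ => x) R = cfc (fun _ : ℝ => (0 : ℝ)) R :=
        cfc_congr (by rw [he]; exact Set.eqOn_empty _ _)
      rw [cfc_id' ℝ R, cfc_const_zero ℝ R] at h1
      rw [h1, zero_smul]
    · apply hns
      refine ⟨(a : ℂ), ?_⟩
      have h1 : cfc (fun x : ℝ => x) R = cfc (fun _ : ℝ => a) R := by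
        apply cfc_congr
        intro x hx
        exact le_antisymm (hcon a ha x hx) (hcon x hx a ha)
      rw [cfc_id' ℝ R, cfc_const a R] at h1
      rw [h1, Algebra.algebraMap_eq_smul_one]
      exact (Complex.coe_smul a (1 : H →L[ℂ] H)).symm
  obtain ⟨a, ha, b, hb, hab⟩ := h2
  set c := (a + b) / 2 with hc
  set f : ℝ → ℝ := fun x => max (x - c) 0 with hf
  set g : ℝ → ℝ := fun x => max (c - x) 0 with hg
  have hfc : Continuous f := by fun_prop
  have hgc : Continuous g := by fun_prop
  have hFG : cfc f R * cfc g R = 0 := by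
    rw [← cfc_mul f g R hfc.continuousOn hgc.continuousOn]
    have h1 : (fun x => f x * g x) = fun _ => 0 := by
      funext x
      simp only [hf, hg]
      rcases le_total x c with h | h
      · rw [max_eq_right (by linarith), zero_mul]
      · rw [max_eq_right (b := (0 : ℝ)) (a := c - x) (by linarith), mul_zero]
    rw [h1]
    exact cfc_const_zero ℝ R
  have hF : cfc f R ≠ 0 := by
    refine cfc_ne_zero_aux hR f hfc hb ?_
    have h5 : f b = b - c := max_eq_left (by rw [hc]; linarith)
    rw [h5, hc]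
    intro h
    linarith
  have hG : cfc g R ≠ 0 := by
    refine cfc_ne_zero_aux hR g hgc ha ?_
    have h5 : g a = c - a := max_eq_left (by rw [hc]; linarith)
    rw [h5, hc]
    intro h
    linarith
  have hcT : Commute R T := hTR.symm
  have hcT' : Commute R (star T) := by
    have := congrArg star hTR
    rw [star_mul, star_mul, hR.star_eq] at this
    exact this
  have h3 : Commute (cfc f R) T := hcT.cfc_real f
  have h4 : Commute (cfc f R) (star T) := hcT'.cfc_real f
  obtain ⟨F, hFe⟩ : ∃ F : H →L[ℂ] H, F = cfc f R := ⟨_, rfl⟩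
  obtain ⟨G, hGe⟩ : ∃ G : H →L[ℂ] H, G = cfc g R := ⟨_, rfl⟩
  rw [← hFe] at h3 h4 hF
  rw [← hGe] at hG
  rw [← hFe, ← hGe] at hFG
  refine ⟨LinearMap.ker (F : H →ₗ[ℂ] H), F.isClosed_ker, ?_, ?_, ?_, ?_⟩
  · intro hbot
    apply hG
    ext x
    have h5 : G x ∈ LinearMap.ker (F : H →ₗ[ℂ] H) := by
      rw [LinearMap.mem_ker]
      exact congrArg (fun B : H →L[ℂ] H => B x) hFG
    rw [hbot, Submodule.mem_bot] at h5
    rw [h5]
    rfl
  · intro htop
    apply hF
    ext x
    have h5 : x ∈ LinearMap.ker (F : H →ₗ[ℂ] H) := by rw [htop]; trivial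
    rw [LinearMap.mem_ker] at h5
    exact h5
  · intro x hx
    have hx' : F x = 0 := hx
    show F (T x) = 0
    have h6 : F (T x) = T (F x) := congrArg (fun B : H →L[ℂ] H => B x) h3.eq
    rw [h6, hx', map_zero]
  · intro x hx
    have hx' : F x = 0 := hx
    show F (adjoint T x) = 0
    have h6 : F (adjoint T x) = adjoint T (F x) := congrArg (fun B : H →L[ℂ] H => B x) h4.eq
    rw [h6, hx', map_zero]

/-- without reducing subspaces every operator that commutes together with its adjoint is scalar -/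
theorem scalar_of_not_hasRed {T R : H →L[ℂ] H} (hT : ¬ HasRed T) (h1 : T * R = R * T)
    (h2 : T * star R = star R * T) : ∃ c : ℂ, R = c • (1 : H →L[ℂ] H) := by
  have hA : IsSelfAdjoint (R + star R) := IsSelfAdjoint.add_star_self R
  have hB : IsSelfAdjoint (Complex.I • (R - star R)) := by
    rw [isSelfAdjoint_iff, star_smul, star_sub, star_star]
    show (starRingEnd ℂ Complex.I) • (star R - R) = _
    rw [Complex.conj_I, ← neg_sub R (star R), smul_neg, neg_smul, neg_neg]
  have hA' : ∃ c : ℂ, R + star R = c • (1 : H →L[ℂ] H) := by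
    by_contra h
    exact hT (hasRed_of_selfAdjoint hA (by rw [mul_add, add_mul, h1, h2]) h)
  have hB' : ∃ c : ℂ, Complex.I • (R - star R) = c • (1 : H →L[ℂ] H) := by
    by_contra h
    exact hT (hasRed_of_selfAdjoint hB
      (by rw [mul_smul_comm, smul_mul_assoc, mul_sub, sub_mul, h1, h2]) h)
  obtain ⟨a, ha⟩ := hA'
  obtain ⟨b, hb⟩ := hB'
  refine ⟨(a - Complex.I * b) / 2, ?_⟩
  have h3 : R - star R = (-Complex.I * b) • (1 : H →L[ℂ] H) := by
    rw [mul_smul, ← hb, smul_smul]
    simp
  have h4 : (2 : ℂ) • R = (R + star R) + (R - star R) := by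
    rw [two_smul]; abel
  rw [ha, h3, ← add_smul] at h4
  have h5 : R = (2 : ℂ)⁻¹ • ((2 : ℂ) • R) := by
    rw [smul_smul, inv_mul_cancel₀ (two_ne_zero), one_smul]
  rw [h5, h4, smul_smul]
  congr 1
  ring

/-- an operator with a normal square has an invariant subspace -/
theorem hasInv_of_sq_normal (hH : ¬ FiniteDimensional ℂ H) {T : H →L[ℂ] H}
    (hN : IsStarNormal (T * T)) : HasInv T := by
  by_cases hred : HasRed T
  · exact hred.hasInv
  have h1 : Commute T (T * T) := by
    show T * (T * T) = T * T * T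
    rw [mul_assoc]
  have h2 : Commute T (star (T * T)) := hN.commute_star_right h1
  obtain ⟨c, hc⟩ := scalar_of_not_hasRed hred h1.eq h2.eq
  have hnt : Nontrivial H := by
    by_contra h
    rw [not_nontrivial_iff_subsingleton] at h
    exact hH inferInstance
  obtain ⟨x, hx⟩ := exists_ne (0 : H)
  have hfd : FiniteDimensional ℂ (Submodule.span ℂ ({x, T x} : Set H)) :=
    FiniteDimensional.span_of_finite ℂ (Set.toFinite _)
  refine ⟨Submodule.span ℂ ({x, T x} : Set H), Submodule.closed_of_finiteDimensional _, ?_, ?_, ?_⟩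
  · intro h
    have : x ∈ Submodule.span ℂ ({x, T x} : Set H) := Submodule.subset_span (by simp)
    rw [h, Submodule.mem_bot] at this
    exact hx this
  · intro h
    apply hH
    rw [h] at hfd
    exact Module.Finite.equiv (Submodule.topEquiv (R := ℂ) (M := H))
  · intro y hy
    have h3 : Submodule.span ℂ ({x, T x} : Set H) ≤
        (Submodule.span ℂ ({x, T x} : Set H)).comap (T : H →ₗ[ℂ] H) := by
      rw [Submodule.span_le]
      rintro z (rfl | rfl)
      · exact Submodule.subset_span (by simp)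
      · show T (T x) ∈ Submodule.span ℂ ({x, T x} : Set H)
        have h4 : T (T x) = c • x := congrArg (fun B : H →L[ℂ] H => B x) hc
        rw [h4]
        exact Submodule.smul_mem _ _ (Submodule.subset_span (by simp))
    exact h3 hy

end Pool.Agent.LibCS52
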