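import Pool.Agent.LibCS52.Inv

/-!
The theorems about complex symmetric operators.
-/

set_option autoImplicit false
set_option linter.unusedSectionVars false

namespace Pool.Agent.LibCS52

open ContinuousLinearMap

variable {H : Type*} [NormedAddCommGroup H] [InnerProductSpace ℂ H] [CompleteSpace H]

/-- `β(Y) = C Y* C` -/
noncomputable def beta {C : H → H} (hC : IsConjugation C) (Y : H →L[ℂ] H) : H →L[ℂ] H :=
  cj hC (star Y)

/-- the operators that belong to both double commutants -/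
def dd (T : H →L[ℂ] H) : Set (H →L[ℂ] H) := dc (star T * T) ∩ dc (T * star T)

section beta

variable {C : H → H} (hC : IsConjugation C)

theorem beta_apply (Y : H →L[ℂ] H) (x : H) : beta hC Y x = C (adjoint Y (C x)) := rfl

theorem beta_beta (Y : H →L[ℂ] H) : beta hC (beta hC Y) = Y := by
  unfold beta
  rw [← cj_star, cj_cj, star_star]

theorem beta_mul (X Y : H →L[ℂ] H) : beta hC (X * Y) = beta hC Y * beta hC X := by
  unfold beta
  rw [star_mul, cj_mul]

theorem beta_add (X Y : H →L[ℂ] H) : beta hC (X + Y) = beta hC X + beta hC Y := by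
  unfold beta
  rw [star_add, cj_add]

theorem beta_smul (c : ℂ) (X : H →L[ℂ] H) : beta hC (c • X) = c • beta hC X := by
  unfold beta
  rw [star_smul, cj_smul]
  simp

theorem beta_one : beta hC (1 : H →L[ℂ] H) = 1 := by
  unfold beta
  rw [star_one, cj_one]

theorem beta_star (Y : H →L[ℂ] H) : beta hC (star Y) = star (beta hC Y) := by
  unfold beta
  rw [star_star, cj_star, star_star]

theorem beta_sub (X Y : H →L[ℂ] H) : beta hC (X - Y) = beta hC X - beta hC Y := by
  have h1 : X - Y = X + (-1 : ℂ) • Y := by simp [sub_eq_add_neg]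
  rw [h1, beta_add, beta_smul]
  simp [sub_eq_add_neg]

variable {T : H →L[ℂ] H} (hT : CSym C T)

theorem dd_star {Y : H →L[ℂ] H} (hY : Y ∈ dd T) : star Y ∈ dd T :=
  ⟨star_mem_dc (IsSelfAdjoint.star_mul_self T) hY.1,
    star_mem_dc (IsSelfAdjoint.mul_star_self T) hY.2⟩

include hC hT in
theorem dd_beta {Y : H →L[ℂ] H} (hY : Y ∈ dd T) : beta hC Y ∈ dd T := by
  have h := dd_star hY
  refine ⟨?_, ?_⟩
  · have h1 := cj_mem_dc hC h.2
    rw [cj_S2 hC hT] at h1
    exact h1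
  · have h1 := cj_mem_dc hC h.1
    rw [cj_S1 hC hT] at h1
    exact h1

theorem dd_comm {X Y : H →L[ℂ] H} (hX : X ∈ dd T) (hY : Y ∈ dd T) : X * Y = Y * X :=
  dc_comm hX.1 hY.1

theorem dd_add {X Y : H →L[ℂ] H} (hX : X ∈ dd T) (hY : Y ∈ dd T) : X + Y ∈ dd T :=
  ⟨add_mem_dc hX.1 hY.1, add_mem_dc hX.2 hY.2⟩

theorem dd_sub {X Y : H →L[ℂ] H} (hX : X ∈ dd T) (hY : Y ∈ dd T) : X - Y ∈ dd T :=
  ⟨sub_mem_dc hX.1 hY.1, sub_mem_dc hX.2 hY.2⟩

theorem dd_mul {X Y : H →L[ℂ] H} (hX : X ∈ dd T) (hY : Y ∈ dd T) : X * Y ∈ dd T :=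
  ⟨mul_mem_dc hX.1 hY.1, mul_mem_dc hX.2 hY.2⟩

theorem dd_smul {Y : H →L[ℂ] H} (c : ℂ) (hY : Y ∈ dd T) : c • Y ∈ dd T :=
  ⟨smul_mem_dc c hY.1, smul_mem_dc c hY.2⟩

theorem dd_one : (1 : H →L[ℂ] H) ∈ dd T := ⟨one_mem_dc _, one_mem_dc _⟩

theorem dd_normal {Y : H →L[ℂ] H} (hY : Y ∈ dd T) : IsStarNormal Y :=
  isStarNormal_of_mem_dc (IsSelfAdjoint.star_mul_self T) hY.1

include hC hT in
theorem T_mul {Y : H →L[ℂ] H} (hY : Y ∈ dd T) : T * Y = beta hC Y * T :=
  main_identity hC hT hY.1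

include hC hT in
theorem T_mul_beta {Y : H →L[ℂ] H} (hY : Y ∈ dd T) : T * beta hC Y = Y * T := by
  rw [T_mul hC hT (dd_beta hC hT hY), beta_beta]

include hC hT in
theorem starT_mul {Y : H →L[ℂ] H} (hY : Y ∈ dd T) : star T * Y = beta hC Y * star T := by
  have h := congrArg star (T_mul_beta hC hT (dd_star hY))
  rw [star_mul, star_mul, star_star, beta_star, star_star] at h
  exact h.symm

include hC hT in
theorem starT_mul_beta {Y : H →L[ℂ] H} (hY : Y ∈ dd T) : star T * beta hC Y = Y * star T := by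
  rw [starT_mul hC hT (dd_beta hC hT hY), beta_beta]

/-- an operator commuting with `T` and `T*` is scalar if `T` has no reducing subspace -/
theorem scalar_of_comm (hR : ¬ HasRed T) {R : H →L[ℂ] H} (h1 : T * R = R * T)
    (h2 : star T * R = R * star T) : ∃ c : ℂ, R = c • (1 : H →L[ℂ] H) := by
  refine scalar_of_not_hasRed hR h1 ?_
  have h := congrArg star h2
  rw [star_mul, star_mul, star_star] at h
  exact h.symm

include hC hT in
theorem sum_scalar (hR : ¬ HasRed T) {Y : H →L[ℂ] H} (hY : Y ∈ dd T) :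
    ∃ c : ℂ, Y + beta hC Y = c • (1 : H →L[ℂ] H) := by
  refine scalar_of_comm hR ?_ ?_
  · rw [mul_add, add_mul, T_mul hC hT hY, T_mul_beta hC hT hY, add_comm]
  · rw [mul_add, add_mul, starT_mul hC hT hY, starT_mul_beta hC hT hY, add_comm]

include hC hT in
/-- after a shift by a scalar `β(Z) = - Z` -/
theorem exists_shift (hR : ¬ HasRed T) {Y : H →L[ℂ] H} (hY : Y ∈ dd T) :
    ∃ c : ℂ, Y - c • (1 : H →L[ℂ] H) ∈ dd T ∧
      beta hC (Y - c • (1 : H →L[ℂ] H)) = -(Y - c • (1 : H →L[ℂ] H)) := by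
  obtain ⟨c, hc⟩ := sum_scalar hC hT hR hY
  refine ⟨c / 2, dd_sub hY (dd_smul _ dd_one), ?_⟩
  have h1 : beta hC Y = c • (1 : H →L[ℂ] H) - Y := by
    rw [← hc]; abel
  have h2 : c • (1 : H →L[ℂ] H) = (c / 2) • (1 : H →L[ℂ] H) + (c / 2) • (1 : H →L[ℂ] H) := by
    rw [← add_smul]; congr 1; ring
  rw [beta_sub, beta_smul, beta_one, h1, h2]
  abel

include hC hT in
/-- products of anti-invariant elements are scalar -/
theorem prod_scalar (hR : ¬ HasRed T) {Z1 Z2 : H →L[ℂ] H} (h1 : Z1 ∈ dd T) (h2 : Z2 ∈ dd T)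
    (hb1 : beta hC Z1 = -Z1) (hb2 : beta hC Z2 = -Z2) :
    ∃ s : ℂ, Z1 * Z2 = s • (1 : H →L[ℂ] H) := by
  obtain ⟨c, hc⟩ := sum_scalar hC hT hR (dd_mul h1 h2)
  refine ⟨c / 2, ?_⟩
  rw [beta_mul, hb1, hb2, neg_mul_neg, dd_comm h2 h1, ← two_smul ℂ] at hc
  have h5 : Z1 * Z2 = (2 : ℂ)⁻¹ • ((2 : ℂ) • (Z1 * Z2)) := by
    rw [smul_smul, inv_mul_cancel₀ (two_ne_zero), one_smul]
  rw [h5, hc, smul_smul]
  congr 1
  ring

/-- a normal operator with square zero is zero -/
theorem normal_sq_zero {Z : H →L[ℂ] H} (hn : IsStarNormal Z) (h : Z * Z = 0) : Z = 0 := by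
  have h1 : ∀ x, Z x = 0 := by
    intro x
    have h2 : ‖Z (Z x)‖ = ‖adjoint Z (Z x)‖ := (isStarNormal_iff_norm_eq_adjoint.1 hn) (Z x)
    have h3 : Z (Z x) = 0 := congrArg (fun B : H →L[ℂ] H => B x) h
    rw [h3, norm_zero] at h2
    have h4 : adjoint Z (Z x) = 0 := norm_eq_zero.1 h2.symm
    have h5 : inner ℂ (Z x) (Z x) = (0 : ℂ) := by
      rw [← adjoint_inner_left, h4, inner_zero_left]
    exact inner_self_eq_zero.1 h5
  exact ContinuousLinearMap.ext h1

include hC hT in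
/-- two elements of the intersection are dependent modulo scalars -/
theorem dependent (hR : ¬ HasRed T) {Y1 Y2 : H →L[ℂ] H} (h1 : Y1 ∈ dd T) (h2 : Y2 ∈ dd T)
    (hns : ¬ ∃ c : ℂ, Y1 = c • (1 : H →L[ℂ] H)) :
    ∃ a b : ℂ, Y2 = a • (1 : H →L[ℂ] H) + b • Y1 := by
  obtain ⟨c1, hm1, hb1⟩ := exists_shift hC hT hR h1
  obtain ⟨c2, hm2, hb2⟩ := exists_shift hC hT hR h2
  set Z1 := Y1 - c1 • (1 : H →L[ℂ] H) with hZ1
  set Z2 := Y2 - c2 • (1 : H →L[ℂ] H) with hZ2
  obtain ⟨s, hs⟩ := prod_scalar hC hT hR hm1 hm2 hb1 hb2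
  obtain ⟨s1, hs1⟩ := prod_scalar hC hT hR hm1 hm1 hb1 hb1
  have h3 : s1 • Z2 = s • Z1 := by
    have h4 : Z1 * Z1 * Z2 = Z1 * (Z1 * Z2) := mul_assoc _ _ _
    rw [hs, hs1, smul_mul_assoc, one_mul, mul_smul_comm, mul_one] at h4
    exact h4
  by_cases h0 : s1 = 0
  · exfalso
    rw [h0, zero_smul] at hs1
    have h4 := normal_sq_zero (dd_normal hm1) hs1
    apply hns
    exact ⟨c1, sub_eq_zero.1 h4⟩
  · have h4 : Z2 = (s1⁻¹ * s) • Z1 := by
      rw [mul_smul, ← h3, smul_smul, inv_mul_cancel₀ h0, one_smul]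
    refine ⟨c2 - (s1⁻¹ * s) * c1, s1⁻¹ * s, ?_⟩
    have h5 : Y2 = c2 • (1 : H →L[ℂ] H) + (s1⁻¹ * s) • (Y1 - c1 • (1 : H →L[ℂ] H)) := by
      rw [← hZ1, ← h4, hZ2]; abel
    rw [h5, smul_sub, sub_smul, smul_smul]
    abel

include hC hT in
/-- the dimension of the intersection -/
theorem hasRed_of_indep {Y1 Y2 : H →L[ℂ] H} (h1 : Y1 ∈ dd T) (h2 : Y2 ∈ dd T)
    (hli : LinearIndependent ℂ ![(1 : H →L[ℂ] H), Y1, Y2]) : HasRed T := by
  by_contra hR
  rw [Fintype.linearIndependent_iff] at hli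
  have hns : ¬ ∃ c : ℂ, Y1 = c • (1 : H →L[ℂ] H) := by
    rintro ⟨c, hc⟩
    have := hli ![c, -1, 0] (by simp [Fin.sum_univ_three, hc]) 1
    simp at this
  obtain ⟨a, b, hab⟩ := dependent hC hT hR h1 h2 hns
  have := hli ![a, b, -1] (by
    simp only [Fin.sum_univ_three, hab, Matrix.cons_val_zero, Matrix.cons_val_one,
      Matrix.cons_val_two, Matrix.head_cons, Matrix.tail_cons, neg_smul, one_smul]
    abel) 2
  simp at this

include hC hT in
/-- a nonscalar element of the intersection gives a reducing subspace of `T²` -/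
theorem hasRed_sq {Y : H →L[ℂ] H} (hY : Y ∈ dd T) (hns : ¬ ∃ c : ℂ, Y = c • (1 : H →L[ℂ] H)) :
    HasRed (T * T) := by
  by_contra hR
  apply hns
  refine scalar_of_comm hR ?_ ?_
  · rw [mul_assoc, T_mul hC hT hY, ← mul_assoc, T_mul_beta hC hT hY, mul_assoc]
  · rw [star_mul, mul_assoc, starT_mul hC hT hY, ← mul_assoc, starT_mul_beta hC hT hY, mul_assoc]

include hC hT in
theorem T_S2 (h : T * star T ∈ dc (star T * T)) : T * (T * star T) = star T * T * T := by
  have h1 := main_identity hC hT h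
  rw [star_mul, star_star, cj_S2 hC hT] at h1
  exact h1

include hC hT in
/-- `T²` is normal if `T T*` belongs to the von Neumann algebra of `T* T` -/
theorem sq_normal (h : T * star T ∈ dc (star T * T)) : IsStarNormal (T * T) := by
  have h1 := T_S2 hC hT h
  refine ⟨?_⟩
  show star (T * T) * (T * T) = T * T * star (T * T)
  rw [star_mul]
  calc star T * star T * (T * T) = star T * ((star T * T) * T) := by
        simp only [mul_assoc]
    _ = star T * (T * (T * star T)) := by rw [h1]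
    _ = (star T * T * T) * star T := by simp only [mul_assoc]
    _ = T * (T * star T) * star T := by rw [h1]
    _ = T * T * (star T * star T) := by simp only [mul_assoc]

theorem mem_dc_of_comm {A B : H →L[ℂ] H} (hAB : B * A = A * B)
    (hc : ∀ X Y : H →L[ℂ] H, X * A = A * X → Y * A = A * Y → X * Y = Y * X) : B ∈ dc A :=
  mem_dc.2 fun X hX => hc X B hX hAB

include hC hT in
/-- projections in the von Neumann algebra of `T* T` that are comparable with their conjugate -/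
theorem hasRed_of_comparable {P : H →L[ℂ] H} (hP : P ∈ dc (star T * T)) (hsa : IsSelfAdjoint P)
    (h0 : P ≠ 0) (h1 : P ≠ 1) (hidem : P * P = P)
    (hcomp : P * beta hC P = P) : HasRed T := by
  have hb1 : beta hC P * P = P := by
    have h2 := congrArg star hcomp
    rw [star_mul, ← beta_star, hsa.star_eq] at h2
    exact h2
  have hb : beta hC P = P := by
    have h2 := congrArg (beta hC) hb1
    rw [beta_mul, beta_beta, hb1] at h2
    exact h2.symm
  by_contra hR
  have h3 : T * P = P * T := by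
    have h4 := main_identity hC hT hP
    change T * P = beta hC P * T at h4
    rw [hb] at h4
    exact h4
  obtain ⟨c, hc⟩ := scalar_of_not_hasRed hR h3 (by rw [hsa.star_eq]; exact h3)
  have hnt : Nontrivial H := by
    by_contra h
    rw [not_nontrivial_iff_subsingleton] at h
    exact h0 (ContinuousLinearMap.ext fun x => Subsingleton.elim _ _)
  rw [hc] at hidem
  rw [smul_mul_smul_comm, mul_one] at hidem
  have h5 : c * c = c := smul_left_injective ℂ (one_ne_zero (α := H →L[ℂ] H)) hidem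
  have h6 : c * (c - 1) = 0 := by rw [mul_sub, h5]; ring
  rcases mul_eq_zero.1 h6 with h7 | h7
  · exact h0 (by rw [hc, h7, zero_smul])
  · exact h1 (by rw [hc, sub_eq_zero.1 h7, one_smul])

include hC hT in
/-- the case of a two-dimensional intersection -/
theorem exists_proj (hR : ¬ HasRed T) {Y : H →L[ℂ] H} (hY : Y ∈ dd T)
    (hns : ¬ ∃ c : ℂ, Y = c • (1 : H →L[ℂ] H)) :
    ∃ P : H →L[ℂ] H, IsSelfAdjoint P ∧ P * P = P ∧ P ∈ dd T ∧
      (¬ ∃ c : ℂ, P = c • (1 : H →L[ℂ] H)) ∧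
      (∀ Y' ∈ dd T, ∃ a b : ℂ, Y' = a • (1 : H →L[ℂ] H) + b • P) ∧ beta hC P = 1 - P ∧
      T * P = (1 - P) * T := by
  obtain ⟨c, hm, hb⟩ := exists_shift hC hT hR hY
  set Z := Y - c • (1 : H →L[ℂ] H) with hZ
  obtain ⟨s, hs⟩ := prod_scalar hC hT hR hm hm hb hb
  have hZns : ¬ ∃ d : ℂ, Z = d • (1 : H →L[ℂ] H) := by
    rintro ⟨d, hd⟩
    apply hns
    refine ⟨d + c, ?_⟩
    rw [add_smul, ← hd, hZ]
    abel
  have hZ0 : Z ≠ 0 := fun h => hZns ⟨0, by rw [h, zero_smul]⟩
  have hs0 : s ≠ 0 := by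
    intro h
    rw [h, zero_smul] at hs
    exact hZ0 (normal_sq_zero (dd_normal hm) hs)
  have hnt : Nontrivial H := by
    by_contra h
    rw [not_nontrivial_iff_subsingleton] at h
    exact hZ0 (ContinuousLinearMap.ext fun x => Subsingleton.elim _ _)
  have hone : (1 : H →L[ℂ] H) ≠ 0 := one_ne_zero
  -- `Z* = b Z`
  obtain ⟨a, b, hab⟩ := dependent hC hT hR hm (dd_star hm) hZns
  have ha : a = 0 := by
    have h1 := congrArg (beta hC) hab
    rw [beta_star, hb, beta_add, beta_smul, beta_smul, beta_one, hb, star_neg, hab] at h1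
    have h2 : (2 * a) • (1 : H →L[ℂ] H) = 0 := by
      have h3 : (2 * a) • (1 : H →L[ℂ] H) =
          (a • (1 : H →L[ℂ] H) + b • -Z) - (-(a • (1 : H →L[ℂ] H) + b • Z)) := by
        rw [mul_smul, two_smul, smul_neg]
        abel
      rw [h3, h1, sub_self]
    rcases smul_eq_zero.1 h2 with h3 | h3
    · simpa using h3
    · exact absurd h3 hone
  rw [ha, zero_smul, zero_add] at hab
  -- a square root
  obtain ⟨u, hu⟩ : ∃ u : ℂ, u ^ 2 = s⁻¹ := IsAlgClosed.exists_pow_nat_eq _ (by norm_num)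
  have hu0 : u ≠ 0 := by
    intro h
    rw [h] at hu
    have : s⁻¹ = 0 := by rw [← hu]; norm_num
    exact hs0 (inv_eq_zero.1 this)
  set W := u • Z with hW
  have hWW : W * W = 1 := by
    rw [hW, smul_mul_smul_comm, hs, smul_smul, ← pow_two, hu, inv_mul_cancel₀ hs0, one_smul]
  obtain ⟨v, hv⟩ : ∃ v : ℂ, star W = v • W := by
    refine ⟨(starRingEnd ℂ u) * b * u⁻¹, ?_⟩
    rw [hW, star_smul, hab, smul_smul, smul_smul, mul_assoc, inv_mul_cancel₀ hu0, mul_one]
    rfl
  have hsW : star W * W = v • (1 : H →L[ℂ] H) := by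
    rw [hv, smul_mul_assoc, hWW]
  have hvr : (starRingEnd ℂ v) = v := by
    have h1 := congrArg star hsW
    rw [star_mul, star_star, hsW, star_smul, star_one] at h1
    exact (smul_left_injective ℂ hone h1).symm
  have hvv : v * v = 1 := by
    have h1 := congrArg star hv
    rw [star_star, star_smul, hv, smul_smul] at h1
    have h2 : (1 : ℂ) • W = (v * v) • W := by
      rw [one_smul]
      have h3 : star v = v := hvr
      rw [h3] at h1
      exact h1
    have hW0 : W ≠ 0 := by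
      intro h
      rw [h, mul_zero] at hWW
      exact hone hWW.symm
    exact (smul_left_injective ℂ hW0 h2).symm
  have hv1 : v = 1 := by
    rcases mul_self_eq_one_iff.1 hvv with h | h
    · exact h
    · exfalso
      obtain ⟨x, hx⟩ := exists_ne (0 : H)
      have h1 : inner ℂ (W x) (W x) = inner ℂ x ((star W * W) x) := by
        show inner ℂ (W x) (W x) = inner ℂ x (adjoint W (W x))
        rw [adjoint_inner_right]
      rw [hsW, h] at h1
      have h2 : ((-1 : ℂ) • (1 : H →L[ℂ] H)) x = -x := by simp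
      rw [h2, inner_neg_right, inner_self_eq_norm_sq_to_K, inner_self_eq_norm_sq_to_K] at h1
      have h3 : ‖W x‖ ^ 2 = -‖x‖ ^ 2 := by exact_mod_cast h1
      have h4 : 0 < ‖x‖ := norm_pos_iff.2 hx
      nlinarith [sq_nonneg ‖W x‖, pow_pos h4 2]
  have hWsa : star W = W := by rw [hv, hv1, one_smul]
  have hWm : W ∈ dd T := dd_smul u hm
  have hbW : beta hC W = -W := by rw [hW, beta_smul, hb, smul_neg]
  set P := (2 : ℂ)⁻¹ • ((1 : H →L[ℂ] H) + W) with hP
  have hPm : P ∈ dd T := dd_smul _ (dd_add dd_one hWm)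
  have hPsa : IsSelfAdjoint P := by
    rw [isSelfAdjoint_iff, hP, star_smul, star_add, star_one, hWsa]
    congr 1
    simp
  have hPP : P * P = P := by
    rw [hP, smul_mul_smul_comm, mul_add, add_mul, add_mul, mul_one, one_mul, mul_one, hWW]
    have h1 : (1 : H →L[ℂ] H) + W + (W + 1) = (2 : ℂ) • ((1 : H →L[ℂ] H) + W) := by
      rw [two_smul]; abel
    rw [h1, smul_smul]
    congr 1
    norm_num
  have hbP : beta hC P = 1 - P := by
    rw [hP, beta_smul, beta_add, beta_one, hbW]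
    have h1 : (1 : H →L[ℂ] H) = (2 : ℂ)⁻¹ • (1 + W) + (2 : ℂ)⁻¹ • (1 + -W) := by
      rw [← smul_add]
      have h2 : (1 : H →L[ℂ] H) + W + (1 + -W) = (2 : ℂ) • (1 : H →L[ℂ] H) := by
        rw [two_smul]; abel
      rw [h2, smul_smul, inv_mul_cancel₀ two_ne_zero, one_smul]
    exact eq_sub_of_add_eq' h1.symm
  have hPns : ¬ ∃ d : ℂ, P = d • (1 : H →L[ℂ] H) := by
    rintro ⟨d, hd⟩
    apply hZns
    refine ⟨u⁻¹ * (2 * d - 1), ?_⟩
    have h1 : W = (2 : ℂ) • P - 1 := by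
      rw [hP, smul_smul, mul_inv_cancel₀ two_ne_zero, one_smul]
      abel
    have h2 : Z = u⁻¹ • W := by
      rw [hW, smul_smul, inv_mul_cancel₀ hu0, one_smul]
    rw [h2, h1, hd, mul_smul, sub_smul, one_smul, smul_smul]
  refine ⟨P, hPsa, hPP, hPm, hPns, ?_, hbP, ?_⟩
  · intro Y' hY'
    exact dependent hC hT hR hPm hY' hPns
  · rw [← hbP]
    exact T_mul hC hT hPm

/-- if `T P = (1 - P) T` and `T²` restricted to the range of `P` has an invariant subspace then so
does `T` -/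
theorem hasInv_of_sq {P : H →L[ℂ] H} (hPP : P * P = P)
    (hTP : T * P = (1 - P) * T) (M : Submodule ℂ H) (hcl : IsClosed (M : Set H)) (h0 : M ≠ ⊥)
    (hM : ∀ x ∈ M, P x = x) (hex : ∃ y, P y = y ∧ y ∉ M) (hinv : ∀ x ∈ M, T (T x) ∈ M) :
    HasInv T := by
  have e1 : ∀ x, T (P x) = T x - P (T x) := fun x => congrArg (fun B : H →L[ℂ] H => B x) hTP
  have e2 : ∀ x, P (P x) = P x := fun x => congrArg (fun B : H →L[ℂ] H => B x) hPP
  set K : Submodule ℂ H := M.comap (P : H →ₗ[ℂ] H) ⊓ M.comap ((T * (1 - P) : H →L[ℂ] H) : H →ₗ[ℂ] H)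
    with hK
  have hmem : ∀ x, x ∈ K ↔ P x ∈ M ∧ T (x - P x) ∈ M := fun x => Iff.rfl
  refine ⟨K, ?_, ?_, ?_, ?_⟩
  · have h1 : IsClosed ((fun x => P x) ⁻¹' (M : Set H)) := hcl.preimage P.continuous
    have h2 : IsClosed ((fun x => T (x - P x)) ⁻¹' (M : Set H)) :=
      hcl.preimage (T.continuous.comp (continuous_id.sub P.continuous))
    exact h1.inter h2
  · intro hbot
    apply h0
    rw [eq_bot_iff]
    intro x hx
    have h1 : x ∈ K := by
      rw [hmem, hM x hx, sub_self, map_zero]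
      exact ⟨hx, M.zero_mem⟩
    rw [hbot] at h1
    exact h1
  · intro htop
    obtain ⟨y, hy1, hy2⟩ := hex
    have h1 : y ∈ K := by rw [htop]; trivial
    rw [hmem, hy1] at h1
    exact hy2 h1.1
  · intro x hx
    rw [hmem] at hx ⊢
    obtain ⟨hx1, hx2⟩ := hx
    have h3 : P (T x) = T (x - P x) := by
      rw [map_sub, e1]
      abel
    refine ⟨by rw [h3]; exact hx2, ?_⟩
    have h4 : T x - P (T x) = T (P x) := (e1 x).symm
    rw [h4]
    exact hinv _ hx1

end beta

end Pool.Agent.LibCS52
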