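import Pool.Agent.LibCS52.Main

/-!
An operator with a normal square on an infinite-dimensional space is reducible.
-/

set_option autoImplicit false

namespace Pool.Agent.LibCS52

open ContinuousLinearMap

variable {H : Type*} [NormedAddCommGroup H] [InnerProductSpace ℂ H] [CompleteSpace H]

/-- an operator with a normal square has a reducing subspace -/
theorem hasRed_of_sq_normal (hH : ¬ FiniteDimensional ℂ H) {T : H →L[ℂ] H}
    (hN : IsStarNormal (T * T)) : HasRed T := by
  by_contra hred
  have h1 : Commute T (T * T) := by
    show T * (T * T) = T * T * T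
    rw [mul_assoc]
  have h2 : Commute T (star (T * T)) := hN.commute_star_right h1
  obtain ⟨c, hc⟩ := scalar_of_not_hasRed hred h1.eq h2.eq
  have hR : IsSelfAdjoint (T * star T + star T * T) :=
    (IsSelfAdjoint.mul_star_self T).add (IsSelfAdjoint.star_mul_self T)
  have hRT : T * (T * star T + star T * T) = (T * star T + star T * T) * T := by
    have e1 : T * (T * star T) = star T * T * T := by
      rw [← mul_assoc, hc, mul_assoc, hc]
      simp
    rw [mul_add, add_mul, e1, add_comm]
    simp only [mul_assoc]
  obtain ⟨d, hd⟩ := scalar_of_not_hasRed hred hRT (by rw [hR.star_eq]; exact hRT)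
  have hnt : Nontrivial H := by
    by_contra h
    rw [not_nontrivial_iff_subsingleton] at h
    exact hH inferInstance
  obtain ⟨x, hx⟩ := exists_ne (0 : H)
  have eT : ∀ y, T (T y) = c • y := fun y => congrArg (fun B : H →L[ℂ] H => B y) hc
  have eS : ∀ y, star T (star T y) = (starRingEnd ℂ c) • y := by
    intro y
    have h3 := congrArg star hc
    rw [star_mul, star_smul, star_one] at h3
    exact congrArg (fun B : H →L[ℂ] H => B y) h3
  have eR : ∀ y, T (star T y) = d • y - star T (T y) := by
    intro y
    have h3 : T (star T y) + star T (T y) = d • y := congrArg (fun B : H →L[ℂ] H => B y) hd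
    rw [← h3]
    abel
  set S : Set H := {x, T x, star T x, star T (T x)} with hS
  have m1 : x ∈ Submodule.span ℂ S := Submodule.subset_span (by simp [hS])
  have m2 : T x ∈ Submodule.span ℂ S := Submodule.subset_span (by simp [hS])
  have m3 : star T x ∈ Submodule.span ℂ S := Submodule.subset_span (by simp [hS])
  have m4 : star T (T x) ∈ Submodule.span ℂ S := Submodule.subset_span (by simp [hS])
  have hfd : FiniteDimensional ℂ (Submodule.span ℂ S) :=
    FiniteDimensional.span_of_finite ℂ (Set.toFinite _)
  refine hred ⟨Submodule.span ℂ S, Submodule.closed_of_finiteDimensional _, ?_, ?_, ?_, ?_⟩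
  · intro h
    rw [h, Submodule.mem_bot] at m1
    exact hx m1
  · intro h
    apply hH
    rw [h] at hfd
    exact Module.Finite.equiv (Submodule.topEquiv (R := ℂ) (M := H))
  · intro y hy
    have h3 : Submodule.span ℂ S ≤ (Submodule.span ℂ S).comap (T : H →ₗ[ℂ] H) := by
      rw [Submodule.span_le]
      rintro z (rfl | rfl | rfl | rfl)
      · exact m2
      · show T (T x) ∈ Submodule.span ℂ S
        rw [eT]
        exact Submodule.smul_mem _ _ m1
      · show T (star T x) ∈ Submodule.span ℂ S
        rw [eR]
        exact Submodule.sub_mem _ (Submodule.smul_mem _ _ m1) m4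
      · show T (star T (T x)) ∈ Submodule.span ℂ S
        rw [eR, eT, map_smul]
        exact Submodule.sub_mem _ (Submodule.smul_mem _ _ m2) (Submodule.smul_mem _ _ m3)
    exact h3 hy
  · intro y hy
    have h3 : Submodule.span ℂ S ≤ (Submodule.span ℂ S).comap ((star T : H →L[ℂ] H) : H →ₗ[ℂ] H) := by
      rw [Submodule.span_le]
      rintro z (rfl | rfl | rfl | rfl)
      · exact m3
      · exact m4
      · show star T (star T x) ∈ Submodule.span ℂ S
        rw [eS]
        exact Submodule.smul_mem _ _ m1
      · show star T (star T (T x)) ∈ Submodule.span ℂ S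
        rw [eS]
        exact Submodule.smul_mem _ _ m2
    exact h3 hy

end Pool.Agent.LibCS52
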